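import Pool.Agent.H37.CNT.Stmts

/-!
# Denominators of conductors: the theorem of Hasse and Arf for abelian subgroups: statements of the rows of
the board `cnh`

Row `XXX` is a theorem `xxx_thm (h1 : S_AAA) ... : S_XXX` in `Pool/Agent/H<k>/CNH/XXX.lean`, importing this
file, namespace `Pool.CND`.
-/

set_option autoImplicit false

namespace Pool.CND

open Finset

/-- HXS: `x = ∏_{j < s} γ ^ j π`: `γ x / x = γ ^ s π / π` -/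
def S_HXS : Prop := ∀ (k L : Type) [Field k] [Field L] [Algebra k L] (P : Place k L)
  (γ : L ≃ₐ[k] L) (s : ℕ), 1 ≤ s → Fixes P γ → γ ^ s ≠ 1 → γ ^ s • P.pi ≠ P.pi →
  ∃ x : L, x ≠ 0 ∧ P.ord x = s ∧ γ x ≠ x ∧ P.ord (γ x - x) = s + P.b (γ ^ s)

/-- HTR: trace and different.  `e` = the order of `γ`, `d = ∑_{1 ≤ j < e} (b (γ ^ j) + 1)`; if `ord z = -1 - d` modulo `e`
then the trace of `z` is not `0`.  `u = P.pi`, `f = ∏_j (X - γ ^ j u)`, `g = ∑_j γ ^ j (z) f / (X - γ ^ j u)`: coefficients fixed by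
`γ`, leading coefficient the trace; `g(u) = z ∏_{j ≠ 0} (u - γ ^ j u)` has order `-1` modulo `e`, but if the trace is `0` then
`g(u)` is a sum of terms `a_i u ^ i`, `i ≤ e - 2`, `e ∣ ord a_i` (`TOT`), `VEC`. -/
def S_HTR : Prop := ∀ (k L : Type) [Field k] [Field L] [Algebra k L] (P : Place k L)
  (γ : L ≃ₐ[k] L) (e : ℕ) (z : L), 2 ≤ e → Fixes P γ → orderOf γ = e → z ≠ 0 →
  (e : ℤ) ∣ P.ord z + 1 + ∑ j ∈ Ico 1 e, (P.b (γ ^ j) + 1) → ∑ j ∈ range e, (γ ^ j) z ≠ 0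

/-- HCN: arithmetic.  `s ↦ s + i (v s)`, `v` the `p`-adic valuation, is injective modulo `p ^ (n + 1)` on the `s` with
`v s < n`, and misses the class of `i (n - 1)` modulo `p ^ n`; count -/
def S_HCN : Prop := ∀ (p n : ℕ) (i : ℕ → ℤ) (C : ℤ), p.Prime → 1 ≤ n →
  (∀ j, 1 ≤ j → j < n → ((p ^ j : ℕ) : ℤ) ∣ i j - i (j - 1)) →
  ¬ ((p ^ n : ℕ) : ℤ) ∣ C - i (n - 1) →
  ∃ s : ℕ, 1 ≤ s ∧ s < p ^ (n + 1) ∧ padicValNat p s < n ∧
    ((p ^ (n + 1) : ℕ) : ℤ) ∣ (s : ℤ) + i (padicValNat p s) - C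

/-- HSD: arithmetic: `∑_{1 ≤ j < p ^ r} i (v j) = ∑_{j < r} (p ^ (r - j) - p ^ (r - j - 1)) i j` -/
def S_HSD : Prop := ∀ (p r : ℕ) (i : ℕ → ℤ), p.Prime →
  ∑ j ∈ Ico 1 (p ^ r), i (padicValNat p j) =
    ∑ j ∈ range r, (((p ^ (r - j) : ℕ) : ℤ) - ((p ^ (r - j - 1) : ℕ) : ℤ)) * i j

/-- HST: one step.  `γ` of order `p ^ (n + 1)`, `i j = b (γ ^ (p ^ j))`; `b (γ ^ s) = i (v s)` (`LON`, as in `SAM`).  If
`-1 - d` is not `i (n - 1)` modulo `p ^ n`, take `s` from `HCN` with `C = -1 - d`, `x` from `HXS`: `γ x - x` has order `C`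
modulo `p ^ (n + 1)` and trace `0`, against `HTR`.  By `HSD` `-1 - d = i n - p (i n - i (n - 1))` modulo `p ^ n`, so
`(1 - p) (i n - i (n - 1)) = 0` modulo `p ^ n`. -/
def S_HST : Prop := ∀ (p : ℕ) (k L : Type) [Field k] [Field L] [Algebra k L] (P : Place k L)
  (γ : L ≃ₐ[k] L) (n : ℕ), p.Prime → 1 ≤ n → Fixes P γ → orderOf γ = p ^ (n + 1) →
  (∀ j, 1 ≤ j → j < n → ((p ^ j : ℕ) : ℤ) ∣ P.b (γ ^ (p ^ j)) - P.b (γ ^ (p ^ (j - 1)))) →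
  ((p ^ n : ℕ) : ℤ) ∣ P.b (γ ^ (p ^ n)) - P.b (γ ^ (p ^ (n - 1)))

/-- HCY: all steps, by induction on `n`: `FXP`, `RST`, `HER` for the subgroup of order `p` (generated by `γ ^ (p ^ n)`): the
numbers `b (γ ^ (p ^ j))`, `j < n`, are the same on the fixed field, where `γ` has order `p ^ n` (`ART`) -/
def S_HCY : Prop := ∀ (p : ℕ) (k L : Type) [Field k] [Field L] [Algebra k L] (P : Place k L)
  (γ : L ≃ₐ[k] L) (n : ℕ), p.Prime → Fixes P γ → orderOf γ = p ^ (n + 1) →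
  ∀ j, 1 ≤ j → j ≤ n → ((p ^ j : ℕ) : ℤ) ∣ P.b (γ ^ (p ^ j)) - P.b (γ ^ (p ^ (j - 1)))

/-- ABC: in a finite abelian group a subgroup maximal among those not containing `g ≠ 1` has cyclic
quotient -/
def S_ABC : Prop := ∀ (G : Type) [Group G] [Finite G] (A : Subgroup G),
  (∀ a ∈ A, ∀ b ∈ A, a * b = b * a) → ∀ g ∈ A, g ≠ 1 →
  ∃ N : Subgroup G, N ≤ A ∧ g ∉ N ∧ ∃ h ∈ A, ∀ a ∈ A, ∃ j : ℕ, a * (h ^ j)⁻¹ ∈ N

/-- UQT: `U` and quotients.  `B g` = mean of `b` on the coset `g N`; `g₀ ∉ N` with `b g₀ = l` maximal: `b (g₀ n) = b n` for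
`n ∈ N`, `n ≠ 1`, so `|N| B g₀ = l + ∑_{n ≠ 1} b n`, and `|N| B g ≤ |N| B g₀` for the other cosets (take `g` with maximal `b g`
in its coset: `b (g n) ≤ b n` or `b (g n) = b g ≤ b n`, ...) -/
def S_UQT : Prop := ∀ (G : Type) [Group G] [Fintype G] (b B : G → ℤ) (N I : Subgroup G) (l : ℤ)
  (g₀ : G), UM b I → N ≤ I → (∀ g ∈ I, ∀ n ∈ N, g * n * g⁻¹ ∈ N) →
  (∀ g ∈ I, g ∉ N → sm b {x | g⁻¹ * x ∈ N} = Nat.card N * B g) → IsLst b I l → g₀ ∈ I → g₀ ∉ N →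
  b g₀ = l → (∀ g ∈ I, g ∉ N → B g ≤ B g₀) ∧
    (Nat.card I : ℚ) * U b I l = Nat.card N * B g₀ + sm B {g | g ∈ I ∧ g ∉ N}

/-- HAB: the theorem of Hasse and Arf: `U(A)` is an integer for abelian `A`: `ABC` for `g` with `b g = l`, `FXP`, `RST`,
`HER`, `ART` (the generator `h` of `A / N` acts on the fixed field by `γ` of order `|A / N| = p ^ r`; `B (h ^ j n) = Q.b (γ ^ j)`),
`HCY`, `UQT`, `HSD`: `p ^ r U(A) = i (r - 1) + ∑_j i (v j) = p ^ r i 0 + ∑_{1 ≤ j < r} p ^ (r - j) (i j - i (j - 1))`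
(`i` is increasing: `WPG`, or `UMW`) -/
def S_HAB : Prop := ∀ (p : ℕ) (k L G : Type) [Field k] [Field L] [Algebra k L] [Group G]
  [Fintype G] (P : Place k L) (ρ : G →* (L ≃ₐ[k] L)) (W A : Subgroup G) (l : ℤ), p.Prime →
  CharP k p → Function.Injective ρ → (W : Set G) = ram P ρ 1 → A ≤ W →
  (∀ a ∈ A, ∀ b ∈ A, a * b = b * a) → IsLst (fun g => P.b (ρ g)) A l →
  ∃ z : ℤ, U (fun g => P.b (ρ g)) A l = z

/-- INB: from abelian `A` to `I` (`MAX`, `CMB`, `HBP`, `UMW`, `HAB`, as `IND`) -/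
def S_INB : Prop := ∀ (p : ℕ) (k L G : Type) [Field k] [Field L] [Algebra k L] [Group G]
  [Fintype G] (P : Place k L) (ρ : G →* (L ≃ₐ[k] L)) (W I A : Subgroup G) (d : ℕ) (l : ℤ),
  p.Prime → CharP k p → Function.Injective ρ → (W : Set G) = ram P ρ 1 → I ≤ W → A ≤ I →
  (∃ n : ℕ, Nat.card I = p ^ n) → (∀ a ∈ A, ∀ b ∈ A, a * b = b * a) →
  Nat.card I = p ^ d * Nat.card A → IsLst (fun g => P.b (ρ g)) I l →
  ∃ z : ℤ, (p : ℚ) ^ d * U (fun g => P.b (ρ g)) I l = z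

/-- SYB: as `SYG`, for an abelian `p`-subgroup -/
def S_SYB : Prop := ∀ (p : ℕ) (G : Type) [Group G] [Finite G] (A W : Subgroup G) (d m : ℕ),
  p.Prime → (∀ a ∈ A, ∀ b ∈ A, a * b = b * a) → (∃ n : ℕ, Nat.card A = p ^ n) → ¬ p ∣ m →
  Nat.card G = p ^ d * Nat.card A * m → (∃ n : ℕ, Nat.card W = p ^ n) →
  ∃ (A' : Subgroup G) (d' : ℕ), A' ≤ W ∧ d' ≤ d ∧ (∀ a ∈ A', ∀ b ∈ A', a * b = b * a) ∧
    Nat.card W = p ^ d' * Nat.card A'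

/-- UPB: the upper bound for an abelian `p`-subgroup `A`: `WLD`, `UMW`, `SYB`, `INB`, `CON` -/
def S_UPB : Prop := ∀ (p : ℕ) (k G : Type) [Field k] [Group G] [Finite G] (A : Subgroup G)
  (d m : ℕ), p.Prime → CharP k p → (∀ a ∈ A, ∀ b ∈ A, a * b = b * a) →
  (∃ n : ℕ, Nat.card A = p ^ n) → ¬ p ∣ m → Nat.card G = p ^ d * Nat.card A * m →
  ∀ c ∈ Cond k G, ∃ z : ℤ, ((p ^ d * m : ℕ) : ℚ) * c = z

end Pool.CND
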